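import Mathlib

/-!
# Pairs of words of equal degree
-/

set_option autoImplicit false

open Finset

namespace Run7.h604.PL

variable {N : ℕ}

lemma sum_cons {k : ℕ} {M : Type*} [AddCommMonoid M] (F : (Fin (k + 1) → Fin N) → M) :
    ∑ g, F g = ∑ s : Fin N, ∑ g : Fin k → Fin N, F (Fin.cons s g) := by
  rw [← (Fin.consEquiv (fun _ : Fin (k + 1) => Fin N)).sum_comp, Fintype.sum_prod_type]
  rfl

/-- The sum over the words of the squares of a centred additive function. -/
lemma sum_dev_sq (x : Fin N → ℝ) (hx : ∑ s, x s = 0) (k : ℕ) :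
    (N : ℝ) * ∑ g : Fin k → Fin N, (∑ i, x (g i)) ^ 2 = k * (N : ℝ) ^ k * ∑ s, x s ^ 2 ∧
      ∑ g : Fin k → Fin N, ∑ i, x (g i) = 0 := by
  induction k with
  | zero => simp
  | succ k ih =>
    obtain ⟨ih1, ih2⟩ := ih
    constructor
    · rw [sum_cons]
      have h1 : ∀ s : Fin N, ∑ g : Fin k → Fin N,
          (∑ i, x ((Fin.cons s g : Fin (k + 1) → Fin N) i)) ^ 2 =
          (N : ℝ) ^ k * x s ^ 2 + ∑ g : Fin k → Fin N, (∑ i, x (g i)) ^ 2 := by
        intro s
        have h2 : ∀ g : Fin k → Fin N, (∑ i, x ((Fin.cons s g : Fin (k + 1) → Fin N) i)) ^ 2 =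
            x s ^ 2 + 2 * x s * (∑ i, x (g i)) + (∑ i, x (g i)) ^ 2 := by
          intro g
          rw [Fin.sum_univ_succ]
          simp only [Fin.cons_zero, Fin.cons_succ]
          ring
        rw [sum_congr rfl fun g _ => h2 g, sum_add_distrib, sum_add_distrib, ← mul_sum, ih2,
          mul_zero, add_zero, sum_const, card_univ, Fintype.card_fun, Fintype.card_fin,
          Fintype.card_fin, nsmul_eq_mul]
        push_cast
        ring
      rw [sum_congr rfl fun s _ => h1 s, sum_add_distrib, ← mul_sum, sum_const, card_univ,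
        Fintype.card_fin, nsmul_eq_mul, mul_add, ih1]
      push_cast
      ring
    · rw [sum_cons]
      have h1 : ∀ s : Fin N, ∑ g : Fin k → Fin N,
          (∑ i, x ((Fin.cons s g : Fin (k + 1) → Fin N) i)) = (N : ℝ) ^ k * x s := by
        intro s
        have h2 : ∀ g : Fin k → Fin N, (∑ i, x ((Fin.cons s g : Fin (k + 1) → Fin N) i)) =
            x s + (∑ i, x (g i)) := by
          intro g
          rw [Fin.sum_univ_succ]
          simp only [Fin.cons_zero, Fin.cons_succ]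
        rw [sum_congr rfl fun g _ => h2 g, sum_add_distrib, ih2, add_zero, sum_const, card_univ,
          Fintype.card_fun, Fintype.card_fin, Fintype.card_fin, nsmul_eq_mul]
        push_cast
        ring
      rw [sum_congr rfl fun s _ => h1 s, ← mul_sum, hx, mul_zero]

/-- The number of pairs of words of length `k` and the same degree. -/
def equalPairs (δ : Fin N → ℕ) (k : ℕ) : Finset ((Fin k → Fin N) × (Fin k → Fin N)) :=
  univ.filter fun p => ∑ i, δ (p.1 i) = ∑ i, δ (p.2 i)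

/-- **Lower bound for the number of pairs of words of the same degree.** -/
theorem equal_pairs (δ : Fin N → ℕ) (B : ℕ) (hB : ∀ s, δ s ≤ B) (k : ℕ) :
    9 * ((N : ℝ) ^ k) ^ 2 ≤ 16 * (2 * B * √k + 1) * ((equalPairs δ k).card : ℝ) := by
  classical
  rcases Nat.eq_zero_or_pos N with rfl | hN
  · rcases Nat.eq_zero_or_pos k with rfl | hk
    · have h1 : (equalPairs δ 0) = univ := by
        ext p
        simp [equalPairs]
      rw [h1]
      simp
      norm_num
    · have : ((0 : ℕ) : ℝ) ^ k = 0 := by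
        rw [Nat.cast_zero, zero_pow (by omega)]
      rw [this, zero_pow two_ne_zero, mul_zero]
      exact mul_nonneg (mul_nonneg (by norm_num) (by positivity)) (Nat.cast_nonneg _)
  have hNR : (0 : ℝ) < N := by exact_mod_cast hN
  set μ : ℝ := (∑ s, (δ s : ℝ)) / N with hμ
  set x : Fin N → ℝ := fun s => δ s - μ with hx
  have hsum : ∑ s, x s = 0 := by
    rw [hx]
    simp only [sum_sub_distrib, sum_const, card_univ, Fintype.card_fin, nsmul_eq_mul]
    rw [hμ]
    field_simp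
    ring
  have hQ : ∑ s, x s ^ 2 ≤ N * (B : ℝ) ^ 2 / 4 := by
    have h1 : ∑ s, ((δ s : ℝ) - B / 2) ^ 2 = ∑ s, x s ^ 2 + N * (μ - B / 2) ^ 2 := by
      have h2 : ∀ s, ((δ s : ℝ) - B / 2) ^ 2 =
          x s ^ 2 + 2 * (μ - B / 2) * x s + (μ - B / 2) ^ 2 := by
        intro s
        rw [hx]
        ring
      rw [sum_congr rfl fun s _ => h2 s, sum_add_distrib, sum_add_distrib, ← mul_sum, hsum,
        mul_zero, add_zero, sum_const, card_univ, Fintype.card_fin, nsmul_eq_mul]
    have h3 : ∑ s, ((δ s : ℝ) - B / 2) ^ 2 ≤ ∑ s : Fin N, (B : ℝ) ^ 2 / 4 := by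
      refine sum_le_sum fun s _ => ?_
      have h4 : (δ s : ℝ) ≤ B := by exact_mod_cast hB s
      have h5 : (0 : ℝ) ≤ δ s := Nat.cast_nonneg _
      nlinarith
    rw [sum_const, card_univ, Fintype.card_fin, nsmul_eq_mul] at h3
    have h4 : 0 ≤ (N : ℝ) * (μ - B / 2) ^ 2 := by positivity
    linarith
  set S : (Fin k → Fin N) → ℝ := fun g => ∑ i, x (g i) with hS
  have hSd : ∀ g, S g = ((∑ i, δ (g i) : ℕ) : ℝ) - k * μ := by
    intro g
    rw [hS]
    simp only [hx]
    rw [sum_sub_distrib, sum_const, card_univ, Fintype.card_fin, nsmul_eq_mul]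
    push_cast
    rfl
  set R : ℝ := B * √k with hR
  have hR0 : 0 ≤ R := by positivity
  have hR2 : R ^ 2 = B ^ 2 * k := by
    rw [hR, mul_pow, Real.sq_sqrt (Nat.cast_nonneg k)]
  have hV : ∑ g, S g ^ 2 ≤ (N : ℝ) ^ k * R ^ 2 / 4 := by
    have h1 := (sum_dev_sq x hsum k).1
    have h2 : (k : ℝ) * (N : ℝ) ^ k * ∑ s, x s ^ 2 ≤ k * (N : ℝ) ^ k * (N * (B : ℝ) ^ 2 / 4) :=
      mul_le_mul_of_nonneg_left hQ (by positivity)
    have h3 : (N : ℝ) * ∑ g, S g ^ 2 ≤ N * ((N : ℝ) ^ k * R ^ 2 / 4) := by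
      rw [hR2]
      calc (N : ℝ) * ∑ g, S g ^ 2 = k * (N : ℝ) ^ k * ∑ s, x s ^ 2 := h1
        _ ≤ k * (N : ℝ) ^ k * (N * (B : ℝ) ^ 2 / 4) := h2
        _ = N * ((N : ℝ) ^ k * (B ^ 2 * k) / 4) := by ring
    exact le_of_mul_le_mul_left h3 hNR
  set G : Finset (Fin k → Fin N) := univ.filter fun g => |S g| ≤ R with hG
  set Bd : Finset (Fin k → Fin N) := univ.filter fun g => ¬ |S g| ≤ R with hBd
  have hbad : (Bd.card : ℝ) ≤ (N : ℝ) ^ k / 4 := by
    have h1 : (Bd.card : ℝ) * R ^ 2 ≤ ∑ g, S g ^ 2 := by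
      calc (Bd.card : ℝ) * R ^ 2 = ∑ g ∈ Bd, R ^ 2 := by rw [sum_const, nsmul_eq_mul]
        _ ≤ ∑ g ∈ Bd, S g ^ 2 := by
          refine sum_le_sum fun g hg => ?_
          rw [hBd, mem_filter] at hg
          rw [← sq_abs (S g)]
          exact pow_le_pow_left₀ hR0 (not_le.1 hg.2).le 2
        _ ≤ ∑ g, S g ^ 2 := sum_le_univ_sum_of_nonneg fun g => sq_nonneg _
    rcases hR0.lt_or_eq with h2 | h2
    · have h3 : 0 < R ^ 2 := by positivity
      have h4 : (Bd.card : ℝ) * R ^ 2 ≤ ((N : ℝ) ^ k / 4) * R ^ 2 := by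
        calc (Bd.card : ℝ) * R ^ 2 ≤ ∑ g, S g ^ 2 := h1
          _ ≤ (N : ℝ) ^ k * R ^ 2 / 4 := hV
          _ = _ := by ring
      exact le_of_mul_le_mul_right h4 h3
    · have h3 : Bd = ∅ := by
        rw [eq_empty_iff_forall_notMem]
        intro g hg
        rw [hBd, mem_filter] at hg
        apply hg.2
        rw [← h2] at hV ⊢
        have h5 : ∑ g, S g ^ 2 ≤ 0 := by simpa using hV
        have h6 : S g ^ 2 ≤ 0 := (single_le_sum (f := fun g => S g ^ 2)
          (fun g _ => sq_nonneg (S g)) (mem_univ g)).trans h5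
        have h7 : S g = 0 := by
          have := le_antisymm h6 (sq_nonneg _)
          exact pow_eq_zero_iff (two_ne_zero) |>.1 this
        rw [h7, abs_zero]
      rw [h3, card_empty, Nat.cast_zero]
      positivity
  have hGc : 3 / 4 * (N : ℝ) ^ k ≤ (G.card : ℝ) := by
    have h1 : G.card + Bd.card = N ^ k := by
      rw [hG, hBd, card_filter_add_card_filter_not]
      rw [card_univ, Fintype.card_fun, Fintype.card_fin, Fintype.card_fin]
    have h2 : (G.card : ℝ) + Bd.card = (N : ℝ) ^ k := by exact_mod_cast h1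
    linarith
  -- the degrees of the good words
  set I : Finset ℤ := Icc ⌈k * μ - R⌉ ⌊k * μ + R⌋ with hI
  have hIc : (I.card : ℝ) ≤ 2 * B * √k + 1 := by
    rw [hI, Int.card_Icc]
    have h1 : ((⌊k * μ + R⌋ + 1 - ⌈k * μ - R⌉ : ℤ) : ℝ) ≤ 2 * B * √k + 1 := by
      push_cast
      have h2 := Int.floor_le (k * μ + R)
      have h3 := Int.le_ceil (k * μ - R)
      rw [hR] at *
      linarith
    have h2 : (0 : ℝ) ≤ 2 * B * √k + 1 := by positivity
    rcases le_total 0 (⌊k * μ + R⌋ + 1 - ⌈k * μ - R⌉) with h3 | h3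
    · have h4 : (((⌊k * μ + R⌋ + 1 - ⌈k * μ - R⌉).toNat : ℤ) : ℝ) =
          ((⌊k * μ + R⌋ + 1 - ⌈k * μ - R⌉ : ℤ) : ℝ) := by rw [Int.toNat_of_nonneg h3]
      have h5 : (((⌊k * μ + R⌋ + 1 - ⌈k * μ - R⌉).toNat : ℕ) : ℝ) =
          (((⌊k * μ + R⌋ + 1 - ⌈k * μ - R⌉).toNat : ℤ) : ℝ) := by norm_cast
      rw [h5, h4]
      exact h1
    · rw [Int.toNat_of_nonpos h3, Nat.cast_zero]
      exact h2
  set deg : (Fin k → Fin N) → ℤ := fun g => ((∑ i, δ (g i) : ℕ) : ℤ) with hdeg
  have hmaps : ∀ g ∈ G, deg g ∈ I := by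
    intro g hg
    rw [hG, mem_filter, hSd, abs_le] at hg
    rw [hI, mem_Icc]
    have h1 : ((deg g : ℤ) : ℝ) = ((∑ i, δ (g i) : ℕ) : ℝ) := by
      rw [hdeg]
      norm_cast
    constructor
    · rw [Int.ceil_le, h1]
      linarith [hg.2.1]
    · rw [Int.le_floor, h1]
      linarith [hg.2.2]
  have hcs : (G.card : ℝ) ^ 2 ≤ I.card * ((equalPairs δ k).card : ℝ) := by
    have h1 : (G.card : ℝ) = ∑ t ∈ I, ((G.filter fun g => deg g = t).card : ℝ) := by
      exact_mod_cast card_eq_sum_card_fiberwise (f := deg) (t := I) fun g hg => hmaps g hg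
    have h2 : ∑ t ∈ I, ((G.filter fun g => deg g = t).card : ℝ) ^ 2 ≤
        ((equalPairs δ k).card : ℝ) := by
      have h3 : ∑ t ∈ I, ((G.filter fun g => deg g = t).card) ^ 2 ≤ (equalPairs δ k).card := by
        set P : Finset ((Fin k → Fin N) × (Fin k → Fin N)) :=
          (G ×ˢ G).filter fun p => deg p.1 = deg p.2 with hP
        have h4 : P ⊆ equalPairs δ k := by
          intro p hp
          rw [hP, mem_filter] at hp
          rw [equalPairs, mem_filter]
          refine ⟨mem_univ _, ?_⟩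
          have h7 : ((∑ i, δ (p.1 i) : ℕ) : ℤ) = ((∑ i, δ (p.2 i) : ℕ) : ℤ) := hp.2
          exact Int.ofNat_inj.1 h7
        have h5 : P.card = ∑ t ∈ I, (P.filter fun p => deg p.1 = t).card := by
          apply card_eq_sum_card_fiberwise
            (f := fun p : (Fin k → Fin N) × (Fin k → Fin N) => deg p.1)
          intro p hp
          rw [mem_coe, hP, mem_filter, mem_product] at hp
          exact hmaps _ hp.1.1
        refine le_trans (le_of_eq ?_) (card_le_card h4)
        rw [h5]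
        refine sum_congr rfl fun t _ => ?_
        have h6 : (P.filter fun p => deg p.1 = t) =
            (G.filter fun g => deg g = t) ×ˢ (G.filter fun g => deg g = t) := by
          ext p
          simp only [hP, mem_filter, mem_product]
          constructor
          · rintro ⟨⟨⟨h1, h2⟩, h3⟩, h4⟩
            exact ⟨⟨h1, h4⟩, h2, by rw [← h3, h4]⟩
          · rintro ⟨⟨h1, h2⟩, h3, h4⟩
            exact ⟨⟨⟨h1, h3⟩, by rw [h2, h4]⟩, h2⟩
        rw [h6, card_product, sq]
      exact_mod_cast h3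
    calc (G.card : ℝ) ^ 2 = (∑ t ∈ I, ((G.filter fun g => deg g = t).card : ℝ)) ^ 2 := by
          rw [← h1]
      _ ≤ I.card * ∑ t ∈ I, ((G.filter fun g => deg g = t).card : ℝ) ^ 2 :=
          sq_sum_le_card_mul_sum_sq
      _ ≤ _ := mul_le_mul_of_nonneg_left h2 (Nat.cast_nonneg _)
  have h1 : (3 / 4 * (N : ℝ) ^ k) ^ 2 ≤ (G.card : ℝ) ^ 2 :=
    pow_le_pow_left₀ (by positivity) hGc 2
  have h2 : (I.card : ℝ) * ((equalPairs δ k).card : ℝ) ≤
      (2 * B * √k + 1) * ((equalPairs δ k).card : ℝ) :=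
    mul_le_mul_of_nonneg_right hIc (Nat.cast_nonneg _)
  nlinarith [h1, h2, hcs]

end Run7.h604.PL
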