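import Pool.Agent.N536.SG.Defs

/-!
# Pairs of degrees which are not separated by algebraic correspondences: definitions
-/

open CategoryTheory AlgebraicGeometry Finset

set_option autoImplicit false

universe u v

namespace Run7.h604.PL

open Pool.Agent.H914 VarClass Obj WeilCohomology Pool.Agent.TH133.PW Pool.Agent.N103.OC
  Pool.Agent.H447 Pool.Agent.N536.SG Filter Topology

section Alg

variable {K : Type*} {V : Type*} [Field K] [AddCommGroup V] [Module K V]

/-- For all `y` in `gr i` and `y'` in `gr j` some linear combination `φ` of the operators in `S`, which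
may depend on `y` and `y'`, satisfies `φ y = y` and `φ y' = 0`. -/
def SeparatesPair (gr : ℕ → Submodule K V) (i j : ℕ) (S : Set (V →ₗ[K] V)) : Prop :=
  ∀ y ∈ gr i, ∀ y' ∈ gr j, ∃ φ ∈ Submodule.span K S, φ y = y ∧ φ y' = 0

/-- Some operator in `S` is the identity on `gr i` and zero on `gr j`. -/
def OneSeparates (gr : ℕ → Submodule K V) (i j : ℕ) (S : Set (V →ₗ[K] V)) : Prop :=
  ∃ φ ∈ S, (∀ y ∈ gr i, φ y = y) ∧ ∀ y ∈ gr j, φ y = 0

end Alg

variable {k : Type u} [Field k] {𝒱 : VarClass k} {ops : CycleOps 𝒱}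

/-- The degrees `i` and `j` of `Y` are separated by combinations of cycles with coefficients in the
coefficient field `K` of the cohomology: for all `y` in `H^i(Y)` and `y'` in `H^j(Y)` there is a
`K`-combination `φ` of correspondences of degree zero, which may depend on `y` and `y'`, with
`φ(y) = y` and `φ(y') = 0`. -/
def SepK (W : WeilCohomology.{u, v} ops) (Y : 𝒱.Obj) (i j : ℕ) : Prop :=
  SeparatesPair (W.gr Y) i j (cycleOperators W Y Y.dim)

/-- The degrees `i` and `j` of `Y` are separated by a cycle with rational coefficients: a cycle of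
codimension `dim Y` on `Y × Y` acts as the identity on `H^i(Y)` and as zero on `H^j(Y)`. -/
def SepQ (W : WeilCohomology.{u, v} ops) (Y : 𝒱.Obj) (i j : ℕ) : Prop :=
  OneSeparates (W.gr Y) i j (cycleOperators W Y Y.dim)

open Classical in
/-- The sum of the numbers `b_i(Y) b_j(Y)` over the pairs `(i, j)` of degrees with the property
`p`. -/
noncomputable def pairWeight (W : WeilCohomology.{u, v} ops) (Y : 𝒱.Obj) (p : ℕ → ℕ → Prop) : ℕ :=
  ∑ i ∈ range (2 * Y.dim + 1), ∑ j ∈ range (2 * Y.dim + 1),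
    if p i j then W.betti Y i * W.betti Y j else 0

/-- The sum of the `b_i(Y) b_j(Y)` over the pairs `i ≠ j` which are not separated by combinations of
cycles with coefficients in `K`. -/
noncomputable def unsepK (W : WeilCohomology.{u, v} ops) (Y : 𝒱.Obj) : ℕ :=
  pairWeight W Y fun i j => i ≠ j ∧ ¬ SepK W Y i j

/-- The sum of the `b_i(Y) b_j(Y)` over the pairs `i ≠ j` which are not separated by a cycle with
rational coefficients. -/
noncomputable def unsepQ (W : WeilCohomology.{u, v} ops) (Y : 𝒱.Obj) : ℕ :=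
  pairWeight W Y fun i j => i ≠ j ∧ ¬ SepQ W Y i j

/-- The sum of the `b_i(Y) b_j(Y)` over the `i` even and `j` odd which are not separated by
combinations of cycles with coefficients in `K`. -/
noncomputable def unsepParity (W : WeilCohomology.{u, v} ops) (Y : 𝒱.Obj) : ℕ :=
  pairWeight W Y fun i j => Even i ∧ Odd j ∧ ¬ SepK W Y i j

/-- **The pair law.** For all `n ≥ 2`

  `9 b(X^n)^2 ≤ 16 b(X)^4 (4 dim X √n + 1) U(X^n)`,

where `b` is the dimension of the whole cohomology: the share `U(X^n) / b(X^n)^2` is at least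
`c n^(-1/2)`, where `c > 0` is explicit and depends on `b(X)` and `dim X` only. -/
def PairLaw (W : WeilCohomology.{u, v} ops) (U : 𝒱.Obj → ℕ) (X : 𝒱.Obj) : Prop :=
  ∀ n ≥ 2, 9 * (totalBetti W (pw X n) : ℝ) ^ 2 ≤
    16 * (totalBetti W X : ℝ) ^ 4 * (4 * X.dim * √n + 1) * U (pw X n)

/-- If for every `ε > 0` the share `U(X^n) / b(X^n)^2` is at most `ε n^(-1/2)` for infinitely many
`n`, then `C X`. -/
def FromPowers (W : WeilCohomology.{u, v} ops) (U : 𝒱.Obj → ℕ) (C : 𝒱.Obj → Prop) (X : 𝒱.Obj) :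
    Prop :=
  (∀ ε : ℝ, 0 < ε → ∃ᶠ n : ℕ in atTop,
    (U (pw X n) : ℝ) * √n ≤ ε * (totalBetti W (pw X n) : ℝ) ^ 2) → C X

/-- If the share `U(Y) / b(Y)^2` is at most `f(b(Y))` for all `Y`, where `f(y) √(log y)` tends to
zero, then `C Y` for all `Y`. -/
def FromRate (W : WeilCohomology.{u, v} ops) (U : 𝒱.Obj → ℕ) (C : 𝒱.Obj → Prop) : Prop :=
  ∀ f : ℕ → ℝ, Tendsto (fun y : ℕ => f y * √(Real.log y)) atTop (𝓝 0) →
    (∀ Y : 𝒱.Obj, (U Y : ℝ) ≤ f (totalBetti W Y) * (totalBetti W Y : ℝ) ^ 2) → ∀ Y : 𝒱.Obj, C Y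

/-- If `r(n)` tends to infinity and for all `Y` with `dim Y ≥ n₀` there are `r + 1` successive
degrees, `r = r(dim Y)`, at distance at least `r` from `0` and from `2 dim Y`, which are separated
from each other in the sense of `Sep`, then `C Y` for all `Y`. -/
def FromWindows (Sep : 𝒱.Obj → ℕ → ℕ → Prop) (C : 𝒱.Obj → Prop) : Prop :=
  ∀ r : ℕ → ℕ, Tendsto r atTop atTop → ∀ n₀ : ℕ,
    (∀ Y : 𝒱.Obj, n₀ ≤ Y.dim → ∃ m, r Y.dim ≤ m ∧ m + 2 * r Y.dim ≤ 2 * Y.dim ∧
      ∀ i ∈ Set.Icc m (m + r Y.dim), ∀ j ∈ Set.Icc m (m + r Y.dim), i ≠ j → Sep Y i j) →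
    ∀ Y : 𝒱.Obj, C Y

/-- The pair law for a property `C` of varieties and the weight `U` of the unseparated pairs of degrees:
`C X` is true if and only if `U X = 0`; if it is false, and `X` has dual cycles, then the share of
`U(X^n)` is at least `c n^(-1/2)` for all `n ≥ 2` (`PairLaw`), so `C X` follows from a smaller share for
infinitely many `n` (`FromPowers`); and `C Y` for all `Y` follows from a share of smaller order than
`(log b(Y))^(-1/2)` for all `Y` (`FromRate`). -/
def LawFor (W : WeilCohomology.{u, v} ops) (U : 𝒱.Obj → ℕ) (C : 𝒱.Obj → Prop) : Prop :=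
  (∀ X, C X ↔ U X = 0) ∧
  (∀ X, DualCycles ops X → (¬ C X → PairLaw W U X) ∧ FromPowers W U C X) ∧
  ((∀ X, DualCycles ops X) → FromRate W U C)

end Run7.h604.PL
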