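import Pool.Agent.Run7.h604.PL.Words

/-!
# The pair law
-/

open CategoryTheory AlgebraicGeometry Finset

set_option autoImplicit false

universe u v

namespace Run7.h604.PL

open Pool.Agent.H914 VarClass Obj WeilCohomology Pool.Agent.TH133.PW Pool.Agent.N103.OC
  Pool.Agent.H447 Pool.Agent.N536.SG Filter Topology

variable {k : Type u} [Field k] {𝒱 : VarClass k} {ops : CycleOps 𝒱}
  {W : WeilCohomology.{u, v} ops} {X Y Z : 𝒱.Obj}
  {Op : ∀ X : 𝒱.Obj, Set (Module.End W.K (W.H X))}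

/-- The degrees `i` and `j` of `Y` are separated by one operator of the class. -/
def SepOp (Op : ∀ X : 𝒱.Obj, Set (Module.End W.K (W.H X))) (Y : 𝒱.Obj) (i j : ℕ) : Prop :=
  ∃ T ∈ Op Y, (∀ x ∈ W.gr Y i, T x = x) ∧ ∀ x ∈ W.gr Y j, T x = 0

/-- From a power to the variety. -/
lemma SepOp.shift (h : OpClass W Op) (hX : Pairs W X) {n s i j : ℕ} (hs : s ≤ n * X.dim)
    (hsep : SepOp Op (pw X (n + 1)) (i + 2 * s) (j + 2 * s)) : SepOp Op X i j := by
  obtain ⟨E, hE, hT⟩ := pw_pshift h hX n s hs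
  obtain ⟨A, hA, h1, h2⟩ := hsep
  obtain ⟨T, hT', h3⟩ := hT A hA
  refine ⟨T, hT', fun x hx => ?_, fun x hx => ?_⟩
  · have := h3 i 1 x hx (by rw [h1 _ (hE i x hx), one_smul])
    rwa [one_smul] at this
  · have := h3 j 0 x hx (by rw [h2 _ (hE j x hx), zero_smul])
    rwa [zero_smul] at this

lemma sepK_iff {i j : ℕ} :
    SepK W Y i j ↔ SepOp (fun X => (KOp W X X 0 : Set (Module.End W.K (W.H X)))) Y i j := by
  constructor
  · intro h
    apply sepDeg_of_pointwise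
    intro y hy y' hy'
    obtain ⟨φ, hφ, h1⟩ := h y hy y' hy'
    rw [span_cycleOperators0] at hφ
    exact ⟨φ, hφ, h1⟩
  · rintro ⟨T, hT, h1, h2⟩ y hy y' hy'
    refine ⟨T, ?_, h1 y hy, h2 y' hy'⟩
    rw [span_cycleOperators0]
    exact hT

lemma sepQ_iff {i j : ℕ} : SepQ W Y i j ↔ SepOp (ratOp W) Y i j := Iff.rfl

/-- The operators of the class preserve the degree. -/
def PreservesDegrees (Op : ∀ X : 𝒱.Obj, Set (Module.End W.K (W.H X))) : Prop :=
  ∀ (X : 𝒱.Obj), ∀ T ∈ Op X, ∀ (j : ℕ), ∀ x ∈ W.gr X j, T x ∈ W.gr X j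

lemma kop_preserves :
    PreservesDegrees (fun X => (KOp W X X 0 : Set (Module.End W.K (W.H X)))) :=
  fun _ _ hT j _ hx => kop_gr hT j hx

lemma rat_preserves : PreservesDegrees (ratOp W) := by
  rintro X T ⟨z, hz, rfl⟩ j x hx
  exact kop_gr (KOp.gen (p := X.dim) (d := 0) (by ring) hz) j hx

lemma zero_mem_op (h : OpClass W Op) : (0 : Module.End W.K (W.H X)) ∈ Op X := by
  have := h.smul (0 : ℚ) (h.one X)
  rwa [Rat.cast_zero, zero_smul] at this

lemma sepOp_of_bot (h : OpClass W Op) {i j : ℕ} (hb : W.gr X i = ⊥ ∨ W.gr X j = ⊥) :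
    SepOp Op X i j := by
  rcases hb with hb | hb
  · refine ⟨0, zero_mem_op h, fun x hx => ?_, fun x _ => rfl⟩
    rw [hb, Submodule.mem_bot] at hx
    rw [hx, map_zero]
  · refine ⟨1, h.one X, fun x _ => rfl, fun x hx => ?_⟩
    rw [hb, Submodule.mem_bot] at hx
    rw [hx, map_zero]

/-- If all pairs of degrees are separated then the projectors belong to the class. -/
theorem proj_of_sep (h : OpClass W Op) (hgr : PreservesDegrees Op)
    (hs : ∀ i j, i ≠ j → SepOp Op X i j) (i : ℕ) : proj (W.isInternal X) i ∈ Op X := by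
  have key : ∀ M : ℕ, ∃ g ∈ Op X, (∀ x ∈ W.gr X i, g x = x) ∧
      ∀ j < M, j ≠ i → ∀ x ∈ W.gr X j, g x = 0 := by
    intro M
    induction M with
    | zero => exact ⟨1, h.one X, fun x _ => rfl, fun j hj => by omega⟩
    | succ M ih =>
      obtain ⟨g, hg, h2, h3⟩ := ih
      by_cases hM : M = i
      · refine ⟨g, hg, h2, fun j hj hji x hx => h3 j ?_ hji x hx⟩
        omega
      · obtain ⟨f, hf, h4, h5⟩ := hs i M (Ne.symm hM)
        refine ⟨g * f, h.mul hg hf, fun x hx => ?_, fun j hj hji x hx => ?_⟩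
        · rw [Module.End.mul_apply, h4 x hx, h2 x hx]
        · rw [Module.End.mul_apply]
          rcases Nat.lt_succ_iff_lt_or_eq.1 hj with hj | rfl
          · exact h3 j hj hji _ (hgr X f hf j x hx)
          · rw [h5 x hx, map_zero]
  obtain ⟨g, hg, h1, h2⟩ := key (2 * X.dim + 1)
  have h3 : g = proj (W.isInternal X) i := by
    apply gr_ext (W.isInternal X)
    intro j x hx
    by_cases hji : j = i
    · subst hji
      rw [proj_same _ hx, h1 x hx]
    · rw [proj_ne _ hx hji]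
      by_cases hj : j < 2 * X.dim + 1
      · exact h2 j hj hji x hx
      · rw [gr_bot_of_lt (by omega), Submodule.mem_bot] at hx
        rw [hx, map_zero]
  rw [← h3]
  exact hg

lemma sep_of_proj (h : ∀ i, proj (W.isInternal X) i ∈ Op X) {i j : ℕ} (hij : i ≠ j) :
    SepOp Op X i j :=
  ⟨_, h i, fun _ hx => proj_same _ hx, fun _ hx => proj_ne _ hx hij.symm⟩

/-- Some pair of degrees is not separated. -/
lemma exists_unsep (h : OpClass W Op) (hgr : PreservesDegrees Op)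
    (hC : ¬ ∀ i, proj (W.isInternal X) i ∈ Op X) :
    ∃ i j, i ≠ j ∧ ¬ SepOp Op X i j ∧ W.gr X i ≠ ⊥ ∧ W.gr X j ≠ ⊥ := by
  by_contra hcon
  push Not at hcon
  apply hC
  apply proj_of_sep h hgr
  intro i j hij
  by_contra hs
  by_cases hb : W.gr X i = ⊥
  · exact hs (sepOp_of_bot h (Or.inl hb))
  · exact hs (sepOp_of_bot h (Or.inr (hcon i j hij hs hb)))

lemma betti_ne {i : ℕ} (h : W.gr X i ≠ ⊥) : W.betti X i ≠ 0 := fun h' => h (betti_eq_zero_iff.1 h')

lemma le_of_ne_bot {i : ℕ} (h : W.gr X i ≠ ⊥) : i ≤ 2 * X.dim := by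
  by_contra hcon
  exact h (gr_bot_of_lt (by omega))

lemma gr_zero_ne_bot {i : ℕ} (h : W.gr X i ≠ ⊥) : W.gr X 0 ≠ ⊥ := by
  intro h0
  apply h
  have h1 : (1 : W.H X) = 0 := by
    have := W.one_mem X
    rwa [h0, Submodule.mem_bot] at this
  rw [eq_bot_iff]
  intro x _
  rw [Submodule.mem_bot, ← one_mul x, h1, zero_mul]

/-- The weight of pairs vanishes if and only if no pair of non-zero degrees has the property. -/
lemma pairWeight_eq_zero {p : ℕ → ℕ → Prop} :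
    pairWeight W X p = 0 ↔ ∀ i j, p i j → W.gr X i = ⊥ ∨ W.gr X j = ⊥ := by
  classical
  unfold pairWeight
  rw [sum_eq_zero_iff]
  constructor
  · intro h i j hp
    by_contra hcon
    push Not at hcon
    have h1 := h i (mem_range.2 (by have := le_of_ne_bot hcon.1; omega))
    rw [sum_eq_zero_iff] at h1
    have h2 := h1 j (mem_range.2 (by have := le_of_ne_bot hcon.2; omega))
    rw [if_pos hp, mul_eq_zero] at h2
    rcases h2 with h2 | h2
    · exact betti_ne hcon.1 h2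
    · exact betti_ne hcon.2 h2
  · intro h i _
    rw [sum_eq_zero_iff]
    intro j _
    split_ifs with hp
    · rcases h i j hp with h1 | h1
      · rw [betti_eq_zero_iff.2 h1, zero_mul]
      · rw [betti_eq_zero_iff.2 h1, mul_zero]
    · rfl

/-- **The pair law**, for a pair of degrees. -/
theorem pair_law {i j : ℕ} (hi : W.gr X i ≠ ⊥) (hj : W.gr X j ≠ ⊥)
    {p : 𝒱.Obj → ℕ → ℕ → Prop}
    (hp : ∀ n s, s ≤ n * X.dim → p (pw X (n + 1)) (i + 2 * s) (j + 2 * s)) :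
    PairLaw W (fun Y => pairWeight W Y (p Y)) X := by
  intro n hn
  obtain ⟨n, rfl⟩ := Nat.exists_eq_add_of_le' hn
  obtain ⟨N, δ, h0, hw⟩ := betti_words W X
  have hN : totalBetti W X = N := by
    have := totalBetti_words (n := 0) (hw 0)
    rw [pow_one] at this
    exact this
  have hex : ∀ l, W.gr X l ≠ ⊥ → ∃ s, δ s = l := by
    intro l hl
    have h1 := betti_ne hl
    rw [h0, Finset.card_ne_zero] at h1
    obtain ⟨s, hs⟩ := h1
    exact ⟨s, (mem_filter.1 hs).2⟩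
  obtain ⟨si, hsi⟩ := hex i hi
  obtain ⟨sj, hsj⟩ := hex j hj
  obtain ⟨e0, he0⟩ := hex 0 (gr_zero_ne_bot hi)
  have hd : ∀ s, δ s ≤ 2 * X.dim := by
    intro s
    apply le_of_ne_bot (W := W)
    intro hb
    have h1 := h0 (δ s)
    rw [betti_eq_zero_iff.2 hb] at h1
    have h2 := Finset.card_eq_zero.1 h1.symm
    have h3 : s ∈ univ.filter fun s' => δ s' = δ s := mem_filter.2 ⟨mem_univ _, rfl⟩
    rw [h2] at h3
    exact absurd h3 (notMem_empty _)
  have h1 := equalPairs_le (hw (n + 1)) hd he0 (p (pw X (n + 1 + 1))) (si := si) (sj := sj)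
    (fun s hs => by
      rw [hsi, hsj]
      exact hp (n + 1) s hs)
  have h2 := equal_pairs δ (2 * X.dim) hd n
  have h3 : (totalBetti W (pw X (n + 2)) : ℝ) = (N : ℝ) ^ (n + 2) := by
    rw [totalBetti_words (n := n + 1) (hw (n + 1))]
    push_cast
    ring
  have h4 : ((equalPairs δ n).card : ℝ) ≤
      (pairWeight W (pw X (n + 2)) (p (pw X (n + 2))) : ℝ) := by exact_mod_cast h1
  have h5 : √(n : ℝ) ≤ √((n + 2 : ℕ) : ℝ) := Real.sqrt_le_sqrt (by push_cast; linarith)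
  rw [h3, hN]
  push_cast at h2
  have h6 : 16 * (2 * (2 * (X.dim : ℝ)) * √(n : ℝ) + 1) * ((equalPairs δ n).card : ℝ) ≤
      16 * (4 * X.dim * √((n + 2 : ℕ) : ℝ) + 1) *
        (pairWeight W (pw X (n + 2)) (p (pw X (n + 2))) : ℝ) := by
    apply mul_le_mul _ h4 (Nat.cast_nonneg _) (by positivity)
    have : 2 * (2 * (X.dim : ℝ)) * √(n : ℝ) ≤ 4 * X.dim * √((n + 2 : ℕ) : ℝ) := by
      have h7 : (0 : ℝ) ≤ 4 * X.dim := by positivity
      nlinarith
    linarith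
  have h7 : (0 : ℝ) ≤ (N : ℝ) ^ 4 := by positivity
  calc 9 * ((N : ℝ) ^ (n + 2)) ^ 2 = (N : ℝ) ^ 4 * (9 * ((N : ℝ) ^ n) ^ 2) := by ring
    _ ≤ (N : ℝ) ^ 4 * (16 * (2 * (2 * (X.dim : ℝ)) * √(n : ℝ) + 1) *
        ((equalPairs δ n).card : ℝ)) := mul_le_mul_of_nonneg_left h2 h7
    _ ≤ (N : ℝ) ^ 4 * (16 * (4 * X.dim * √((n + 2 : ℕ) : ℝ) + 1) *
        (pairWeight W (pw X (n + 2)) (p (pw X (n + 2))) : ℝ)) := mul_le_mul_of_nonneg_left h6 h7
    _ = _ := by ring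

/-- From the powers of one variety. -/
theorem fromPowers {U : 𝒱.Obj → ℕ} {C : 𝒱.Obj → Prop} (hlaw : ¬ C X → PairLaw W U X)
    (htot : ¬ C X → 2 ≤ totalBetti W X) : FromPowers W U C X := by
  intro h
  by_contra hC
  have hb := htot hC
  have hbR : (2 : ℝ) ≤ totalBetti W X := by exact_mod_cast hb
  set c : ℝ := 16 * (totalBetti W X : ℝ) ^ 4 * (4 * X.dim + 1) with hc
  have hc0 : 0 < c := by positivity
  obtain ⟨n, h1, hn⟩ := ((h (1 / c) (by positivity)).and_eventually (eventually_ge_atTop 2)).exists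
  have h2 := hlaw hC n hn
  have hsq : (1 : ℝ) ≤ √(n : ℝ) := by
    rw [Real.one_le_sqrt]
    exact_mod_cast (by omega : 1 ≤ n)
  have hU : (0 : ℝ) ≤ U (pw X n) := Nat.cast_nonneg _
  have h3 : 16 * (totalBetti W X : ℝ) ^ 4 * (4 * X.dim * √(n : ℝ) + 1) * U (pw X n) ≤
      c * (U (pw X n) * √(n : ℝ)) := by
    have h4 : (4 * X.dim * √(n : ℝ) + 1) ≤ (4 * X.dim + 1) * √(n : ℝ) := by nlinarith
    have h5 : 0 ≤ 16 * (totalBetti W X : ℝ) ^ 4 := by positivity
    calc 16 * (totalBetti W X : ℝ) ^ 4 * (4 * X.dim * √(n : ℝ) + 1) * U (pw X n)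
        ≤ 16 * (totalBetti W X : ℝ) ^ 4 * ((4 * X.dim + 1) * √(n : ℝ)) * U (pw X n) :=
          mul_le_mul_of_nonneg_right (mul_le_mul_of_nonneg_left h4 h5) hU
      _ = _ := by rw [hc]; ring
  have h4 : c * (U (pw X n) * √(n : ℝ)) ≤ (totalBetti W (pw X n) : ℝ) ^ 2 := by
    calc c * (U (pw X n) * √(n : ℝ)) ≤ c * (1 / c * (totalBetti W (pw X n) : ℝ) ^ 2) :=
          mul_le_mul_of_nonneg_left h1 hc0.le
      _ = _ := by field_simp
  have h5 : 0 < (totalBetti W (pw X n) : ℝ) ^ 2 := by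
    obtain ⟨m, rfl⟩ := Nat.exists_eq_add_of_le' (show 1 ≤ n by omega)
    rw [total_pow]
    push_cast
    positivity
  linarith

/-- From a rate for all varieties. -/
theorem fromRate {U : 𝒱.Obj → ℕ} {C : 𝒱.Obj → Prop} (h : ∀ X, FromPowers W U C X)
    (htot : ∀ X, ¬ C X → 2 ≤ totalBetti W X) : FromRate W U C := by
  intro f hf hU X
  by_contra hC
  have hb := htot X hC
  apply hC
  apply h X
  intro ε hε
  apply Eventually.frequently
  set b := totalBetti W X with hbdef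
  have hlogb : 0 < Real.log b := Real.log_pos (by exact_mod_cast (by omega : 1 < b))
  have h1 : Tendsto (fun n : ℕ => b ^ n) atTop atTop :=
    _root_.tendsto_pow_atTop_atTop_of_one_lt (by omega : 1 < b)
  have h2 := hf.comp h1
  have h3 : ∀ᶠ n : ℕ in atTop, f (b ^ n) * √(Real.log ((b ^ n : ℕ) : ℝ)) < ε * √(Real.log b) :=
    h2.eventually_lt_const (by positivity)
  filter_upwards [h3, eventually_ge_atTop 1] with n hn hn1
  obtain ⟨m, rfl⟩ := Nat.exists_eq_add_of_le' hn1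
  have h4 := hU (pw X (m + 1))
  rw [total_pow, ← hbdef] at h4
  rw [total_pow, ← hbdef]
  have hlog : Real.log ((b ^ (m + 1) : ℕ) : ℝ) = ((m + 1 : ℕ) : ℝ) * Real.log b := by
    push_cast
    rw [Real.log_pow]
    push_cast
    ring
  rw [hlog, Real.sqrt_mul (by positivity), ← mul_assoc] at hn
  have h5 : f (b ^ (m + 1)) * √((m + 1 : ℕ) : ℝ) ≤ ε :=
    (lt_of_mul_lt_mul_right hn (Real.sqrt_nonneg _)).le
  have h6 : (0 : ℝ) ≤ √((m + 1 : ℕ) : ℝ) := Real.sqrt_nonneg _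
  calc (U (pw X (m + 1)) : ℝ) * √((m + 1 : ℕ) : ℝ)
      ≤ (f (b ^ (m + 1)) * ((b ^ (m + 1) : ℕ) : ℝ) ^ 2) * √((m + 1 : ℕ) : ℝ) :=
        mul_le_mul_of_nonneg_right h4 h6
    _ = (f (b ^ (m + 1)) * √((m + 1 : ℕ) : ℝ)) * ((b ^ (m + 1) : ℕ) : ℝ) ^ 2 := by ring
    _ ≤ ε * ((b ^ (m + 1) : ℕ) : ℝ) ^ 2 := mul_le_mul_of_nonneg_right h5 (by positivity)

lemma two_le_of_pair {i j : ℕ} (hij : i ≠ j) (hi : W.gr X i ≠ ⊥) (hj : W.gr X j ≠ ⊥) :
    2 ≤ totalBetti W X := by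
  have h1 : ∀ l, W.gr X l ≠ ⊥ → 1 ≤ W.betti X l := fun l hl =>
    Nat.one_le_iff_ne_zero.2 (betti_ne hl)
  have h2 : ({i, j} : Finset ℕ) ⊆ range (2 * X.dim + 1) := by
    intro l hl
    rw [mem_insert, mem_singleton] at hl
    rw [mem_range]
    have := le_of_ne_bot hi
    have := le_of_ne_bot hj
    omega
  calc 2 ≤ W.betti X i + W.betti X j := Nat.add_le_add (h1 i hi) (h1 j hj)
    _ = ∑ l ∈ ({i, j} : Finset ℕ), W.betti X l := (sum_pair hij).symm
    _ ≤ _ := sum_le_sum_of_subset h2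

section classes

variable {C : 𝒱.Obj → Prop} {Sep : 𝒱.Obj → ℕ → ℕ → Prop}

/-- The law for the conjecture C for a class of operators. -/
theorem class_law (h : OpClass W Op) (hgr : PreservesDegrees Op)
    (hCiff : ∀ X, C X ↔ ∀ i, proj (W.isInternal X) i ∈ Op X)
    (hSiff : ∀ Y i j, Sep Y i j ↔ SepOp Op Y i j) (hX : Pairs W X) (hC : ¬ C X) :
    PairLaw W (fun Y => pairWeight W Y fun i j => i ≠ j ∧ ¬ Sep Y i j) X ∧
      2 ≤ totalBetti W X := by
  rw [hCiff] at hC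
  obtain ⟨i, j, hij, hs, hi, hj⟩ := exists_unsep h hgr hC
  refine ⟨pair_law hi hj (p := fun Y i j => i ≠ j ∧ ¬ Sep Y i j) fun n s hns => ⟨by omega, ?_⟩,
    two_le_of_pair hij hi hj⟩
  rw [hSiff]
  exact fun hsep => hs (hsep.shift h hX hns)

theorem class_iff (h : OpClass W Op) (hgr : PreservesDegrees Op)
    (hCiff : ∀ X, C X ↔ ∀ i, proj (W.isInternal X) i ∈ Op X)
    (hSiff : ∀ Y i j, Sep Y i j ↔ SepOp Op Y i j) (X : 𝒱.Obj) :
    C X ↔ pairWeight W X (fun i j => i ≠ j ∧ ¬ Sep X i j) = 0 := by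
  rw [pairWeight_eq_zero]
  constructor
  · intro hC i j hp
    exact absurd ((hSiff _ _ _).2 (sep_of_proj ((hCiff X).1 hC) hp.1)) hp.2
  · intro h1
    rw [hCiff]
    apply proj_of_sep h hgr
    intro i j hij
    by_contra hs
    apply hs
    refine sepOp_of_bot h (h1 i j ⟨hij, ?_⟩)
    rwa [hSiff]

theorem class_windows (h : OpClass W Op) (hgr : PreservesDegrees Op)
    (hCiff : ∀ X, C X ↔ ∀ i, proj (W.isInternal X) i ∈ Op X)
    (hSiff : ∀ Y i j, Sep Y i j ↔ SepOp Op Y i j) (hX : ∀ X, Pairs W X) :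
    FromWindows Sep C := by
  intro r hr n₀ hwin X
  by_contra hC
  rw [hCiff] at hC
  obtain ⟨i, j, hij, hs, hi, hj⟩ := exists_unsep h hgr hC
  have hi2 := le_of_ne_bot hi
  have hj2 := le_of_ne_bot hj
  have hd : 0 < X.dim := by omega
  -- a large power
  obtain ⟨N₁, hN₁⟩ := (hr.eventually_ge_atTop (2 * X.dim + 2)).exists_forall_of_atTop
  obtain ⟨n, hn⟩ : ∃ n, n = n₀ + N₁ := ⟨_, rfl⟩
  have hdim : (pw X (n + 1)).dim = (n + 1) * X.dim := pw_dim X n
  have h1 : n₀ + N₁ ≤ (pw X (n + 1)).dim := by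
    rw [hdim, hn]
    nlinarith
  obtain ⟨m, hm1, hm2, hm3⟩ := hwin (pw X (n + 1)) (by omega)
  have hr2 := hN₁ (pw X (n + 1)).dim (by omega)
  set R := r (pw X (n + 1)).dim with hR
  rw [hdim] at hm2
  have e1 : (n + 1) * X.dim = n * X.dim + X.dim := by ring
  -- choose the shift
  have key : ∃ s ≤ n * X.dim, i + 2 * s ∈ Set.Icc m (m + R) ∧ j + 2 * s ∈ Set.Icc m (m + R) := by
    refine ⟨(m + 1) / 2, by omega, ?_, ?_⟩
    · rw [Set.mem_Icc]
      omega
    · rw [Set.mem_Icc]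
      omega
  obtain ⟨s, hs1, hs2, hs3⟩ := key
  apply hs
  apply SepOp.shift h (hX X) hs1
  rw [← hSiff]
  exact hm3 _ hs2 _ hs3 (by omega)

end classes

end Run7.h604.PL
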