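import Pool.Agent.Run7.h604.PL.Main

/-!
# The pair law for the sign conjecture and for the conjecture C
-/

open CategoryTheory AlgebraicGeometry Finset

set_option autoImplicit false

universe u v

namespace Run7.h604.PL

open Pool.Agent.H914 VarClass Obj WeilCohomology Pool.Agent.TH133.PW Pool.Agent.N103.OC
  Pool.Agent.H447 Pool.Agent.N536.SG Filter Topology

variable {k : Type u} [Field k] {𝒱 : VarClass k} {ops : CycleOps 𝒱}
  {W : WeilCohomology.{u, v} ops} {X Y Z : 𝒱.Obj}

theorem sign_law (hX : Pairs W X) (hC : ¬ SignStd W X) :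
    PairLaw W (unsepParity W) X ∧ 2 ≤ totalBetti W X := by
  obtain ⟨i, j, hi, hj, hie, hjo, hs, hbi, hbj⟩ := exists_not_sep hC
  have hij : i ≠ j := by
    rintro rfl
    exact (Nat.not_even_iff_odd.2 hjo) hie
  refine ⟨pair_law hbi hbj (p := fun Y i j => Even i ∧ Odd j ∧ ¬ SepK W Y i j)
    fun n s hns => ⟨hie.add (even_two_mul s), hjo.add_even (even_two_mul s), ?_⟩,
    two_le_of_pair hij hbi hbj⟩
  rw [sepK_iff]
  exact fun hsep => hs (hsep.shift (kop_class W) hX hns)

theorem sign_iff (W : WeilCohomology.{u, v} ops) (X : 𝒱.Obj) :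
    SignStd W X ↔ unsepParity W X = 0 := by
  rw [unsepParity, pairWeight_eq_zero]
  constructor
  · rintro h i j ⟨hi, hj, hs⟩
    exfalso
    apply hs
    intro y hy y' hy'
    exact parityOn_of_sign h Set.univ i trivial j trivial hi hj y hy y' hy'
  · intro h1
    apply signStd_of_sep
    intro i _ j _ hi hj
    by_contra hs
    have h2 : ¬ SepK W X i j := fun h => hs (sepK_iff.1 h)
    exact hs (sepOp_of_bot (kop_class W) (h1 i j ⟨hi, hj, h2⟩))

theorem sign_powers (hX : Pairs W X) : FromPowers W (unsepParity W) (SignStd W) X :=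
  fromPowers (fun h => (sign_law hX h).1) fun h => (sign_law hX h).2

theorem sign_rate (hX : ∀ X : 𝒱.Obj, Pairs W X) : FromRate W (unsepParity W) (SignStd W) :=
  fromRate (fun X => sign_powers (hX X)) fun X h => (sign_law (hX X) h).2

lemma span_iff (W : WeilCohomology.{u, v} ops) (X : 𝒱.Obj) : AllSpan W X ↔
    ∀ i, proj (W.isInternal X) i ∈ (KOp W X X 0 : Set (Module.End W.K (W.H X))) :=
  forall_congr' fun i => spanComponent_iff i

lemma rational_iff (W : WeilCohomology.{u, v} ops) (X : 𝒱.Obj) : AllRational W X ↔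
    ∀ i, proj (W.isInternal X) i ∈ ratOp W X :=
  forall_congr' fun i => rationalComponent_iff i

theorem law_sign (W : WeilCohomology.{u, v} ops) : LawFor W (unsepParity W) (SignStd W) :=
  ⟨sign_iff W, fun _ hX => ⟨fun hC => (sign_law (pairs_of_dual hX) hC).1,
    sign_powers (pairs_of_dual hX)⟩, fun hX => sign_rate fun X => pairs_of_dual (hX X)⟩

theorem law_span (W : WeilCohomology.{u, v} ops) : LawFor W (unsepK W) (AllSpan W) := by
  have h2 : ∀ X, DualCycles ops X → ¬ AllSpan W X →
      PairLaw W (unsepK W) X ∧ 2 ≤ totalBetti W X := fun X hX hC =>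
    class_law (kop_class W) kop_preserves (span_iff W) (fun _ _ _ => sepK_iff)
      (pairs_of_dual hX) hC
  refine ⟨class_iff (kop_class W) kop_preserves (span_iff W) (fun _ _ _ => sepK_iff),
    fun X hX => ⟨fun hC => (h2 X hX hC).1,
      fromPowers (fun hC => (h2 X hX hC).1) fun hC => (h2 X hX hC).2⟩, fun hX => ?_⟩
  exact fromRate (fun X => fromPowers (fun hC => (h2 X (hX X) hC).1)
    fun hC => (h2 X (hX X) hC).2) fun X hC => (h2 X (hX X) hC).2

theorem law_rational (W : WeilCohomology.{u, v} ops) :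
    LawFor W (unsepQ W) (AllRational W) := by
  have h2 : ∀ X, DualCycles ops X → ¬ AllRational W X →
      PairLaw W (unsepQ W) X ∧ 2 ≤ totalBetti W X := fun X hX hC =>
    class_law (rat_class W) rat_preserves (rational_iff W) (fun _ _ _ => sepQ_iff)
      (pairs_of_dual hX) hC
  refine ⟨class_iff (rat_class W) rat_preserves (rational_iff W) (fun _ _ _ => sepQ_iff),
    fun X hX => ⟨fun hC => (h2 X hX hC).1,
      fromPowers (fun hC => (h2 X hX hC).1) fun hC => (h2 X hX hC).2⟩, fun hX => ?_⟩
  exact fromRate (fun X => fromPowers (fun hC => (h2 X (hX X) hC).1)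
    fun hC => (h2 X (hX X) hC).2) fun X hC => (h2 X (hX X) hC).2

theorem windows_span (W : WeilCohomology.{u, v} ops) (hX : ∀ X, DualCycles ops X) :
    FromWindows (SepK W) (AllSpan W) :=
  class_windows (kop_class W) kop_preserves (span_iff W) (fun _ _ _ => sepK_iff)
    fun X => pairs_of_dual (hX X)

theorem windows_rational (W : WeilCohomology.{u, v} ops) (hX : ∀ X, DualCycles ops X) :
    FromWindows (SepQ W) (AllRational W) :=
  class_windows (rat_class W) rat_preserves (rational_iff W) (fun _ _ _ => sepQ_iff)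
    fun X => pairs_of_dual (hX X)

end Run7.h604.PL
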