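import Pool.Agent.Run7.h604.PL.Cnt
import Pool.Agent.Run7.h604.PL.Defs
import Pool.Agent.N536.SG.Fin

/-!
# The weight of the pairs of degrees of a power
-/

open CategoryTheory AlgebraicGeometry Finset

set_option autoImplicit false

universe u v

namespace Run7.h604.PL

open Pool.Agent.H914 VarClass Obj WeilCohomology Pool.Agent.TH133.PW Pool.Agent.N103.OC
  Pool.Agent.H447 Pool.Agent.N536.SG Filter Topology

variable {k : Type u} [Field k] {𝒱 : VarClass k} {ops : CycleOps 𝒱}
  {W : WeilCohomology.{u, v} ops} {X Y Z : 𝒱.Obj}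

/-- The weight of pairs in terms of words. -/
lemma card_le_pairWeight {N n : ℕ} {δ : Fin N → ℕ}
    (h : ∀ m, W.betti Y m = (univ.filter fun g : Fin n → Fin N => ∑ k, δ (g k) = m).card)
    (p : ℕ → ℕ → Prop) [DecidablePred fun q : (Fin n → Fin N) × (Fin n → Fin N) =>
      p (∑ k, δ (q.1 k)) (∑ k, δ (q.2 k))] :
    (univ.filter fun q : (Fin n → Fin N) × (Fin n → Fin N) =>
      p (∑ k, δ (q.1 k)) (∑ k, δ (q.2 k))).card ≤ pairWeight W Y p := by
  classical
  have h1 : ∀ g : Fin n → Fin N, ∑ k, δ (g k) ∈ range (2 * Y.dim + 1) := by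
    intro g
    by_contra hcon
    rw [mem_range] at hcon
    have h2 := h (∑ k, δ (g k))
    have h3 : W.gr Y (∑ k, δ (g k)) = ⊥ := gr_bot_of_lt (by omega)
    rw [WeilCohomology.betti, h3, finrank_bot] at h2
    have h4 := Finset.card_eq_zero.1 h2.symm
    have h5 : g ∈ univ.filter fun g' : Fin n → Fin N => ∑ k, δ (g' k) = ∑ k, δ (g k) :=
      mem_filter.2 ⟨mem_univ _, rfl⟩
    rw [h4] at h5
    exact absurd h5 (notMem_empty _)
  set S := univ.filter fun q : (Fin n → Fin N) × (Fin n → Fin N) =>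
      p (∑ k, δ (q.1 k)) (∑ k, δ (q.2 k)) with hS
  have h2 : S.card = ∑ t ∈ range (2 * Y.dim + 1) ×ˢ range (2 * Y.dim + 1),
      (S.filter fun q => (∑ k, δ (q.1 k), ∑ k, δ (q.2 k)) = t).card := by
    apply card_eq_sum_card_fiberwise
      (f := fun q : (Fin n → Fin N) × (Fin n → Fin N) => (∑ k, δ (q.1 k), ∑ k, δ (q.2 k)))
    intro q _
    rw [mem_coe, mem_product]
    exact ⟨h1 q.1, h1 q.2⟩
  rw [h2, sum_product, pairWeight]
  refine sum_le_sum fun i _ => sum_le_sum fun j _ => ?_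
  by_cases hp : p i j
  · rw [if_pos hp, h i, h j, ← card_product]
    apply card_le_card
    intro q hq
    rw [mem_filter, Prod.mk.injEq] at hq
    rw [mem_product, mem_filter, mem_filter]
    exact ⟨⟨mem_univ _, hq.2.1⟩, mem_univ _, hq.2.2⟩
  · rw [if_neg hp, Nat.le_zero, card_eq_zero, eq_empty_iff_forall_notMem]
    intro q hq
    rw [mem_filter, hS, mem_filter, Prod.mk.injEq] at hq
    apply hp
    rw [← hq.2.1, ← hq.2.2]
    exact hq.1.2

/-- **The pairs `(i + 2 s, j + 2 s)` in a power.** -/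
theorem equalPairs_le {N : ℕ} {δ : Fin N → ℕ} {d n : ℕ}
    (h : ∀ m, W.betti Y m =
      (univ.filter fun g : Fin (n + 1 + 1) → Fin N => ∑ k, δ (g k) = m).card)
    (hd : ∀ s, δ s ≤ 2 * d) {si sj e0 : Fin N} (he0 : δ e0 = 0) (p : ℕ → ℕ → Prop)
    (hp : ∀ s ≤ (n + 1) * d, p (δ si + 2 * s) (δ sj + 2 * s)) :
    (equalPairs δ n).card ≤ pairWeight W Y p := by
  classical
  refine le_trans ?_ (card_le_pairWeight h p)
  -- a letter which makes the degree even
  obtain ⟨o, ho⟩ : ∃ o : Fin N, ∀ s, Odd (δ s) → Odd (δ o) := by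
    by_cases hex : ∃ s, Odd (δ s)
    · obtain ⟨o, ho⟩ := hex
      exact ⟨o, fun _ _ => ho⟩
    · push Not at hex
      exact ⟨e0, fun s hs => absurd hs (hex s)⟩
  set e : (Fin n → Fin N) → Fin N := fun g => if Even (∑ k, δ (g k)) then e0 else o with he
  have heven : ∀ g : Fin n → Fin N, Even (δ (e g) + ∑ k, δ (g k)) := by
    intro g
    rw [he]
    simp only
    split_ifs with h1
    · rw [he0, zero_add]
      exact h1
    · have h2 : Odd (∑ k, δ (g k)) := Nat.not_even_iff_odd.1 h1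
      have h3 : ∃ s, Odd (δ s) := by
        by_contra hcon
        push Not at hcon
        apply h1
        exact Finset.even_sum _ fun k _ => Nat.not_odd_iff_even.1 (hcon _)
      obtain ⟨s, hs⟩ := h3
      exact (ho s hs).add_odd h2
  refine card_le_card_of_injOn
    (fun q => (Fin.cons si (Fin.cons (e q.1) q.1 : Fin (n + 1) → Fin N),
      Fin.cons sj (Fin.cons (e q.1) q.2 : Fin (n + 1) → Fin N))) ?_ ?_
  · intro q hq
    rw [mem_coe, equalPairs, mem_filter] at hq
    rw [mem_coe, mem_filter]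
    refine ⟨mem_univ _, ?_⟩
    have e1 : ∀ (a b : Fin N) (g : Fin n → Fin N),
        ∑ k, δ ((Fin.cons a (Fin.cons b g : Fin (n + 1) → Fin N) : Fin (n + 1 + 1) → Fin N) k) =
          δ a + (δ b + ∑ k, δ (g k)) := by
      intro a b g
      rw [Fin.sum_univ_succ, Fin.sum_univ_succ]
      simp only [Fin.cons_zero, Fin.cons_succ]
    simp only [e1]
    rw [← hq.2]
    obtain ⟨s, hs⟩ := heven q.1
    have h2 : δ (e q.1) + ∑ k, δ (q.1 k) = 2 * s := by omega
    rw [h2]
    apply hp
    have h3 : ∑ k, δ (q.1 k) ≤ n * (2 * d) := by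
      calc ∑ k, δ (q.1 k) ≤ ∑ _k : Fin n, 2 * d := sum_le_sum fun k _ => hd _
        _ = n * (2 * d) := by rw [sum_const, card_univ, Fintype.card_fin, smul_eq_mul]
    have h4 := hd (e q.1)
    have h5 : (n + 1) * d = n * d + d := by ring
    have h6 : n * (2 * d) = 2 * (n * d) := by ring
    omega
  · intro q _ q' _ hqq
    simp only [Prod.mk.injEq] at hqq
    have h1 := congrArg (Fin.tail (α := fun _ => Fin N)) hqq.1
    have h2 := congrArg (Fin.tail (α := fun _ => Fin N)) hqq.2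
    rw [Fin.tail_cons, Fin.tail_cons] at h1 h2
    have h3 := congrArg (Fin.tail (α := fun _ => Fin N)) h1
    have h4 := congrArg (Fin.tail (α := fun _ => Fin N)) h2
    rw [Fin.tail_cons, Fin.tail_cons] at h3 h4
    exact Prod.ext h3 h4

end Run7.h604.PL
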